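import Pool.Agent.H73.GWT.Stmts

set_option autoImplicit false

open Classical

namespace GWT

variable {ι G V : Type*} [Fintype ι] [Group G] [MulAction G V] (C : Code ι G V)

theorem IN1 : IN1Stmt C := by
  have hd : ∀ (g : G) (x y : V), C.T.dist (g • x) (g • y) = C.T.dist x y := fun g x y => C.ds g x y
  have p1 : ∀ s : ι, C.T.dist C.o ((C.c s) ^ 2 • C.o) ≤ 2 * C.Λ := by
    intro s
    have h1 := dtri C.tree C.o (C.c s • C.o) ((C.c s) ^ 2 • C.o)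
    have h2 : C.T.dist (C.c s • C.o) ((C.c s) ^ 2 • C.o) = C.Λ := by
      rw [pow_two, mul_smul, hd, C.d1]
    rw [C.d1, h2] at h1
    omega
  have p2 : ∀ s : ι, C.T.dist ((C.c s) ^ 2 • C.o) ((C.c s) ^ 4 • C.o) =
      C.T.dist C.o ((C.c s) ^ 2 • C.o) := by
    intro s
    rw [show (C.c s) ^ 4 = (C.c s) ^ 2 * (C.c s) ^ 2 by rw [← pow_add], mul_smul, hd]
  have p3 : ∀ s : ι, C.T.dist ((C.c s) ^ 3 • C.o) ((C.c s) ^ 4 • C.o) = C.Λ := by
    intro s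
    rw [show (C.c s) ^ 4 = (C.c s) ^ 3 * C.c s by rw [← pow_succ], mul_smul, hd, C.d1]
  have p4 : ∀ s : ι, C.T.dist ((C.c s) ^ 2 • C.o) ((C.c s) ^ 3 • C.o) = C.Λ := by
    intro s
    rw [show (C.c s) ^ 3 = (C.c s) ^ 2 * C.c s by rw [← pow_succ], mul_smul, hd, C.d1]
  refine ⟨?_, ?_, ?_, ?_⟩
  · intro s t h
    exact C.p3 s t 1 (one_smul _ _) (by rw [one_smul]; exact h)
  · intro s t h
    refine C.p3 s t (C.c t * (C.c s)⁻¹) ?_ ?_
    · rw [mul_smul, h, smul_inv_smul]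
    · rw [mul_smul, inv_smul_smul]
  · intro s
    have h4 := C.d4 s
    have h := dtri C.tree C.o ((C.c s) ^ 2 • C.o) ((C.c s) ^ 4 • C.o)
    rw [h4, p2] at h
    have := p1 s
    show C.T.dist C.o ((C.c s) ^ 2 • C.o) = 2 * C.Λ
    omega
  · intro s
    have h4 := C.d4 s
    have h := dtri C.tree C.o ((C.c s) ^ 3 • C.o) ((C.c s) ^ 4 • C.o)
    rw [h4, p3] at h
    have h' := dtri C.tree C.o ((C.c s) ^ 2 • C.o) ((C.c s) ^ 3 • C.o)
    rw [p4] at h'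
    have := p1 s
    show C.T.dist C.o ((C.c s) ^ 3 • C.o) = 3 * C.Λ
    omega

end GWT
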